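import Pool.Agent.Lib.MP_e8140e_co.Main

/-!
# A uniform local algorithm of sublogarithmic complexity for 5-colouring the 6-regular tree

The algorithm: the labels are cut into 64 levels, and a greedy procedure over the levels gives an
independent set `S`, whose members get colour 0.  A vertex is done at step 0 if it is in `S`, and
done at step `l + 1` if it was done at step `l` or has at least three neighbours done at step `l`
(this is bootstrap percolation, or peeling).  The probability not to be done after `l` steps is
doubly exponentially small in `l`; this is shown with a recursion on the rooted tree and a
numerical estimate of its first steps.  A vertex outside `S` that becomes done at step `l + 1` has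
at most three neighbours outside `S` that become done at step `l + 1` or later, so colouring the
vertices outside `S` greedily from late to early (ties are decided by the labels) uses only the
colours 1, 2, 3, 4 in addition to the colour 0 of `S`.  A long chain of dependencies must have
monotone layers and monotone labels within each layer, which is superexponentially unlikely.
-/

set_option autoImplicit false

open MeasureTheory Topology Asymptotics Pool.Agent.Lib.MP_e8140e_co

namespace Pool.Agent.Results.MP_e8140e_co.SublogFiveColoring

/-- On the 6-regular tree there is a uniform local algorithm that almost surely produces a proper
colouring with five colours and has uniform complexity `o(log(1/ε))`. -/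
theorem result {V : Type*} (G : SimpleGraph V) (hG : G.IsTree)
    (h6 : ∀ v, (G.neighborSet v).ncard = 6) :
    ∃ A : UniformLocalAlgorithm G (Fin 5),
      (∀ᵐ ω ∂(labelMeasure V), ∃ c : V → Fin 5,
        (∀ v, A.Outputs v ω (c v)) ∧ ∀ u v, G.Adj u v → c u ≠ c v) ∧
      ∃ t : ℝ → ℕ, UniformComplexity A t ∧
        (fun ε => (t ε : ℝ)) =o[𝓝[>] 0] (fun ε => Real.log ε⁻¹) :=
  main hG h6

end Pool.Agent.Results.MP_e8140e_co.SublogFiveColoring
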